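import Mathlib

/-!
# Every finite simple graph is permutationally 1-11-representable

`occ w` counts the occurrences of the consecutive pattern 11 (two adjacent equal letters) in the
word `w`.  A word `w` over the vertex set, containing every vertex, `k`-11-represents `G` when two
distinct vertices `x`, `y` are adjacent exactly when `w` restricted to the letters `x`, `y` has at
most `k` occurrences of the pattern 11.  We show that EVERY finite simple graph is 1-11-represented
by a concatenation of permutations of its vertex set (in particular by a uniform word).

Construction: sort the vertex list into its reverse by adjacent transpositions, every pair being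
exchanged exactly once; at the exchange of a non-adjacent pair, exchange it back and once more.
-/

namespace Pool.Agent.Results.MP_eaeafc_co.EveryGraph

variable {V : Type*}

/-- the number of occurrences of the consecutive pattern 11 in a word: the number of pairs of
adjacent positions carrying the same letter -/
def occ [DecidableEq V] : List V → ℕ
  | [] => 0
  | [_] => 0
  | a :: b :: l => (if a = b then 1 else 0) + occ (b :: l)

/-- the restriction of a word to the letters `x` and `y` -/
def restr [DecidableEq V] (x y : V) (w : List V) : List V :=
  w.filter (fun c => decide (c = x ∨ c = y))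

/-- the word `w` `k`-11-represents the graph `G` -/
def Represents [DecidableEq V] (k : ℕ) (G : SimpleGraph V) (w : List V) : Prop :=
  (∀ v : V, v ∈ w) ∧ ∀ x y : V, x ≠ y → (G.Adj x y ↔ occ (restr x y w) ≤ k)

/-- `w` is a concatenation of permutations of the vertex set -/
def IsPermConcat (w : List V) : Prop :=
  ∃ L : List (List V), (∀ p ∈ L, p.Nodup ∧ ∀ v : V, v ∈ p) ∧ w = L.flatten

/-- all letters occur equally often in `w` -/
def IsUniform [DecidableEq V] (w : List V) : Prop :=
  ∃ m : ℕ, ∀ v : V, w.count v = m

section occ
variable [DecidableEq V]

lemma occ_cons_le (a : V) (l : List V) : occ l ≤ occ (a :: l) := by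
  cases l with
  | nil => simp [occ]
  | cons b l => simp [occ]

lemma occ_append_right (l₁ l₂ : List V) : occ l₂ ≤ occ (l₁ ++ l₂) := by
  induction l₁ with
  | nil => simp
  | cons a l ih => exact ih.trans (occ_cons_le a _)

lemma occ_append_left (l₁ l₂ : List V) : occ l₁ ≤ occ (l₁ ++ l₂) := by
  induction l₁ with
  | nil => simp [occ]
  | cons a l ih =>
    cases l with
    | nil => simp [occ]
    | cons b l =>
      simp only [List.cons_append, occ] at ih ⊢
      omega

lemma occ_append_le (l₁ l₂ : List V) : occ (l₁ ++ l₂) ≤ occ l₁ + occ l₂ + 1 := by
  induction l₁ with
  | nil => simp [occ]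
  | cons a l ih =>
    cases l with
    | nil =>
      cases l₂ with
      | nil => simp [occ]
      | cons c l₂ =>
        simp only [List.cons_append, List.nil_append, occ]
        split_ifs <;> omega
    | cons b l =>
      simp only [List.cons_append, occ] at ih ⊢
      omega

lemma occ_replicate {x y : V} (h : x ≠ y) (a : ℕ) :
    occ (List.replicate a [x, y]).flatten = 0 := by
  induction a with
  | zero => simp [occ]
  | succ a ih =>
    rw [List.replicate_succ, List.flatten_cons]
    cases a with
    | zero => simp [occ, h]
    | succ a =>
      rw [List.replicate_succ, List.flatten_cons] at ih ⊢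
      simp only [List.cons_append, List.nil_append, occ] at ih ⊢
      rw [if_neg h, if_neg (Ne.symm h)]
      simpa [h] using ih

end occ

variable [DecidableEq V] (G : SimpleGraph V) [DecidableRel G.Adj]

/-- the extra double exchange for a non-adjacent pair -/
def extra (v u : V) (pre l : List V) : List (List V) :=
  if G.Adj v u then [] else [pre ++ u :: v :: l, pre ++ v :: u :: l]

/-- moving `v` through the list `l` to the right (the part `pre` has been passed) -/
def phase (v : V) : List V → List V → List (List V)
  | _, [] => []
  | pre, u :: l => (pre ++ v :: u :: l) :: (extra G v u pre l ++ phase v (pre ++ [u]) l)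

/-- the list of permutations from `l` to its reverse -/
def sweep : List V → List (List V)
  | [] => [[]]
  | v :: l => phase G v [] l ++ (sweep l).map (fun p => p ++ [v])

lemma phase_perm (v : V) (pre l : List V) : ∀ p ∈ phase G v pre l, p.Perm (v :: (pre ++ l)) := by
  induction l generalizing pre with
  | nil => simp [phase]
  | cons u l ih =>
    intro p hp
    have h1 : (pre ++ v :: u :: l).Perm (v :: (pre ++ u :: l)) := List.perm_middle
    have h2 : (pre ++ u :: v :: l).Perm (v :: (pre ++ u :: l)) :=
      (List.Perm.append_left pre (List.Perm.swap v u l)).trans h1
    simp only [phase, List.mem_cons, List.mem_append] at hp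
    rcases hp with rfl | hp | hp
    · exact h1
    · unfold extra at hp
      split_ifs at hp with hG
      · simp at hp
      · simp only [List.mem_cons, List.not_mem_nil, or_false] at hp
        rcases hp with rfl | rfl
        · exact h2
        · exact h1
    · have := ih (pre ++ [u]) p hp
      simpa using this

lemma sweep_perm (l : List V) : ∀ p ∈ sweep G l, p.Perm l := by
  induction l with
  | nil => simp [sweep]
  | cons v l ih =>
    intro p hp
    simp only [sweep, List.mem_append, List.mem_map] at hp
    rcases hp with hp | ⟨q, hq, rfl⟩
    · simpa using phase_perm G v [] l p hp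
    · have := ih q hq
      exact (List.perm_append_comm (l₁ := q) (l₂ := [v])).trans (by simpa using this)

lemma sweep_ne_nil (l : List V) : sweep G l ≠ [] := by
  induction l with
  | nil => simp [sweep]
  | cons v l ih =>
    simp only [sweep, ne_eq, List.append_eq_nil_iff, List.map_eq_nil_iff, not_and]
    intro _
    exact ih

omit [DecidableEq V] in
lemma perm_pair {l : List V} {x y : V} (h : l.Perm [x, y]) : l = [x, y] ∨ l = [y, x] := by
  have hlen : l.length = 2 := by simpa using h.length_eq
  obtain ⟨a, b, rfl⟩ := List.length_eq_two.1 hlen
  have ha : a ∈ [x, y] := h.mem_iff.1 (by simp)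
  simp only [List.mem_cons, List.not_mem_nil, or_false] at ha
  rcases ha with rfl | rfl
  · left
    have h2 := (List.perm_cons a).1 h
    have h3 := List.perm_singleton.1 h2
    rw [h3]
  · right
    have h2 := (List.perm_cons a).1 (h.trans (List.Perm.swap a x []))
    have h3 := List.perm_singleton.1 h2
    rw [h3]

lemma restr_append (x y : V) (a b : List V) : restr x y (a ++ b) = restr x y a ++ restr x y b := by
  simp [restr]

lemma restr_cons_eq (x y a : V) (l : List V) :
    restr x y (a :: l) = restr x y [a] ++ restr x y l := by
  rw [show a :: l = [a] ++ l from rfl, restr_append]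

lemma restr_self_left (x y : V) : restr x y [x] = [x] := by simp [restr]
lemma restr_self_right (x y : V) : restr x y [y] = [y] := by simp [restr]
lemma restr_other {x y v : V} (h1 : v ≠ x) (h2 : v ≠ y) : restr x y [v] = [] := by
  simp [restr, h1, h2]

lemma restr_nil_of_not_mem {x y : V} {l : List V} (hx : x ∉ l) (hy : y ∉ l) :
    restr x y l = [] := by
  unfold restr
  rw [List.filter_eq_nil_iff]
  intro c hc
  simp only [decide_eq_true_eq, not_or]
  exact ⟨fun h => hx (h ▸ hc), fun h => hy (h ▸ hc)⟩

/-- both letters are different from `v`: all entries restrict to the word `restr (pre ++ l)` -/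
lemma phase_other {x y v : V} (h1 : v ≠ x) (h2 : v ≠ y) (pre l : List V) :
    ∀ p ∈ phase G v pre l, restr x y p = restr x y (pre ++ l) ∨
      (∃ u ∈ l, ¬ G.Adj v u ∧ restr x y p = restr x y (pre ++ l)) := by
  induction l generalizing pre with
  | nil => simp [phase]
  | cons u l ih =>
    intro p hp
    left
    have e1 : restr x y (pre ++ v :: u :: l) = restr x y (pre ++ u :: l) := by
      rw [restr_append, restr_cons_eq x y v, restr_other h1 h2, List.nil_append, ← restr_append]
    have e2 : restr x y (pre ++ u :: v :: l) = restr x y (pre ++ u :: l) := by
      rw [restr_append, restr_cons_eq x y u, restr_cons_eq x y v, restr_other h1 h2,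
        List.nil_append, ← restr_cons_eq, ← restr_append]
    simp only [phase, List.mem_cons, List.mem_append] at hp
    rcases hp with rfl | hp | hp
    · exact e1
    · unfold extra at hp
      split_ifs at hp with hG
      · simp at hp
      · simp only [List.mem_cons, List.not_mem_nil, or_false] at hp
        rcases hp with rfl | rfl
        · exact e2
        · exact e1
    · have := ih (pre ++ [u]) p hp
      simp only [List.append_assoc, List.cons_append, List.nil_append] at this
      rcases this with h | ⟨_, _, _, h⟩ <;> exact h

/-- `v` has already passed `x`: all entries restrict to `x v` -/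
lemma phase_after {x v : V} (hne : v ≠ x) (pre l : List V) (hv : v ∉ pre) (hp : restr v x pre = [x])
    (hvl : v ∉ l) (hxl : x ∉ l) : ∀ p ∈ phase G v pre l, restr v x p = [x, v] := by
  induction l generalizing pre with
  | nil => simp [phase]
  | cons u l ih =>
    intro p hpm
    simp only [List.mem_cons, not_or] at hvl hxl
    have hu : restr v x [u] = [] := restr_other (Ne.symm hvl.1) (Ne.symm hxl.1)
    have hl : restr v x l = [] := restr_nil_of_not_mem hvl.2 hxl.2
    have hvv : restr v x [v] = [v] := restr_self_left v x
    simp only [phase, List.mem_cons, List.mem_append] at hpm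
    have e1 : restr v x (pre ++ v :: u :: l) = [x, v] := by
      rw [restr_append, restr_cons_eq v x v, restr_cons_eq v x u, hp, hu, hl, hvv]; rfl
    have e2 : restr v x (pre ++ u :: v :: l) = [x, v] := by
      rw [restr_append, restr_cons_eq v x u, restr_cons_eq v x v, hp, hu, hl, hvv]; rfl
    rcases hpm with rfl | hpm | hpm
    · exact e1
    · unfold extra at hpm
      split_ifs at hpm with hG
      · simp at hpm
      · simp only [List.mem_cons, List.not_mem_nil, or_false] at hpm
        rcases hpm with rfl | rfl
        · exact e2
        · exact e1
    · refine ih (pre ++ [u]) ?_ ?_ hvl.2 hxl.2 p hpm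
      · simp only [List.mem_append, List.mem_singleton, not_or]
        exact ⟨hv, hvl.1⟩
      · rw [restr_append, hp, hu]; rfl

/-- the middle part of the pattern of restrictions -/
def mid (x y : V) : List (List V) := if G.Adj x y then [] else [[y, x], [x, y]]

/-- the pattern of the restrictions of a phase to `v` and a letter `x` to be passed -/
lemma phase_pass {x v : V} (hne : v ≠ x) (pre l : List V) (hv : v ∉ pre) (hx : x ∉ pre)
    (hvl : v ∉ l) (hxl : x ∈ l) (hnd : l.Nodup) :
    ∃ a b : ℕ, (phase G v pre l).map (restr v x) =
      List.replicate (a + 1) [v, x] ++ (mid G v x ++ List.replicate b [x, v]) := by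
  induction l generalizing pre with
  | nil => simp at hxl
  | cons u l ih =>
    have hvv : restr v x [v] = [v] := restr_self_left v x
    have hxx : restr v x [x] = [x] := restr_self_right v x
    have hpre : restr v x pre = [] := restr_nil_of_not_mem hv hx
    simp only [List.mem_cons, not_or] at hvl
    rw [List.nodup_cons] at hnd
    by_cases hux : u = x
    · subst hux
      have hl : restr v u l = [] := restr_nil_of_not_mem hvl.2 hnd.1
      have e1 : restr v u (pre ++ v :: u :: l) = [v, u] := by
        rw [restr_append, restr_cons_eq v u v, restr_cons_eq v u u, hpre, hxx, hl, hvv]; rfl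
      have e2 : restr v u (pre ++ u :: v :: l) = [u, v] := by
        rw [restr_append, restr_cons_eq v u u, restr_cons_eq v u v, hpre, hxx, hl, hvv]; rfl
      refine ⟨0, (phase G v (pre ++ [u]) l).length, ?_⟩
      have hrest : (phase G v (pre ++ [u]) l).map (restr v u) =
          List.replicate (phase G v (pre ++ [u]) l).length [u, v] := by
        rw [List.eq_replicate_iff]
        refine ⟨by simp, ?_⟩
        intro b hb
        obtain ⟨p, hp, rfl⟩ := List.mem_map.1 hb
        refine phase_after G hne (pre ++ [u]) l ?_ ?_ hvl.2 hnd.1 p hp
        · simp only [List.mem_append, List.mem_singleton, not_or]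
          exact ⟨hv, hvl.1⟩
        · rw [restr_append, hpre, hxx]; rfl
      have hmid : (extra G v u pre l).map (restr v u) = mid G v u := by
        unfold extra mid
        split_ifs with hG
        · rfl
        · simp only [List.map_cons, List.map_nil, e1, e2]
      simp only [phase, List.map_cons, List.map_append, hrest, hmid, e1]
      simp
    · have hxl' : x ∈ l := by
        rcases List.mem_cons.1 hxl with h | h
        · exact absurd h.symm hux
        · exact h
      have hu : restr v x [u] = [] := restr_other (Ne.symm hvl.1) hux
      obtain ⟨a, b, hab⟩ := ih (pre ++ [u])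
        (by simp only [List.mem_append, List.mem_singleton, not_or]; exact ⟨hv, hvl.1⟩)
        (by simp only [List.mem_append, List.mem_singleton, not_or]; exact ⟨hx, fun h => hux h.symm⟩)
        hvl.2 hxl' hnd.2
      have hl : restr v x l = [x] := by
        have h1 : (restr v x l).Perm [x] := by
          unfold restr
          rw [List.perm_ext_iff_of_nodup (hnd.2.filter _) (by simp)]
          intro c
          simp only [List.mem_filter, decide_eq_true_eq, List.mem_singleton]
          constructor
          · rintro ⟨hc, rfl | rfl⟩
            · exact absurd hc hvl.2
            · rfl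
          · rintro rfl
            exact ⟨hxl', Or.inr rfl⟩
        exact List.perm_singleton.1 h1
      have e1 : restr v x (pre ++ v :: u :: l) = [v, x] := by
        rw [restr_append, restr_cons_eq v x v, restr_cons_eq v x u, hpre, hu, hl, hvv]; rfl
      have e2 : restr v x (pre ++ u :: v :: l) = [v, x] := by
        rw [restr_append, restr_cons_eq v x u, restr_cons_eq v x v, hpre, hu, hl, hvv]; rfl
      have hex : ∃ c, (extra G v u pre l).map (restr v x) = List.replicate c [v, x] := by
        unfold extra
        split_ifs with hG
        · exact ⟨0, rfl⟩
        · exact ⟨2, by simp only [List.map_cons, List.map_nil, e1, e2]; rfl⟩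
      obtain ⟨c, hc⟩ := hex
      refine ⟨1 + c + a, b, ?_⟩
      simp only [phase, List.map_cons, List.map_append, hab, hc, e1]
      rw [show 1 + c + a + 1 = 1 + (c + (a + 1)) by ring, List.replicate_add 1,
        List.replicate_add c]
      simp only [List.append_assoc]
      rfl

/-- the pattern of the restrictions of the whole sweep -/
lemma sweep_pattern (l : List V) (hnd : l.Nodup) {x y : V} (hne : x ≠ y)
    (hxy : restr x y l = [x, y]) :
    ∃ a b : ℕ, (sweep G l).map (restr x y) =
      List.replicate (a + 1) [x, y] ++ (mid G x y ++ List.replicate (b + 1) [y, x]) := by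
  induction l with
  | nil => simp [restr] at hxy
  | cons v l ih =>
    rw [List.nodup_cons] at hnd
    rw [restr_cons_eq] at hxy
    by_cases hvx : v = x
    · subst hvx
      rw [restr_self_left] at hxy
      have hl : restr v y l = [y] := by simpa using hxy
      have hyl : y ∈ l := by
        have : y ∈ restr v y l := by rw [hl]; simp
        exact (List.mem_filter.1 this).1
      obtain ⟨a, b, hab⟩ := phase_pass G hne [] l (by simp) (by simp) hnd.1 hyl hnd.2
      obtain ⟨c, hc⟩ : ∃ c, (sweep G l).length = c + 1 := by
        have := List.length_pos_iff.2 (sweep_ne_nil G l)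
        exact ⟨(sweep G l).length - 1, by omega⟩
      refine ⟨a, b + c, ?_⟩
      have h2 : ((sweep G l).map (fun p => p ++ [v])).map (restr v y) =
          List.replicate (c + 1) [y, v] := by
        rw [List.eq_replicate_iff]
        refine ⟨by simp [hc], ?_⟩
        intro q hq
        obtain ⟨q', hq', rfl⟩ := List.mem_map.1 hq
        obtain ⟨p, hp, rfl⟩ := List.mem_map.1 hq'
        have hperm := sweep_perm G l p hp
        have h3 : (restr v y p).Perm (restr v y l) := hperm.filter _
        rw [hl] at h3
        have h4 : restr v y p = [y] := List.perm_singleton.1 h3
        rw [restr_append, h4, restr_self_left]; rfl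
      simp only [sweep, List.map_append, hab, h2, List.append_assoc]
      rw [← List.replicate_add, show b + (c + 1) = b + c + 1 by ring]
    · by_cases hvy : v = y
      · subst hvy
        rw [restr_self_right] at hxy
        simp only [List.cons_append, List.nil_append, List.cons.injEq] at hxy
        exact absurd hxy.1 hvx
      · rw [restr_other hvx hvy, List.nil_append] at hxy
        obtain ⟨a, b, hab⟩ := ih hnd.2 hxy
        have h1 : (phase G v [] l).map (restr x y) =
            List.replicate (phase G v [] l).length [x, y] := by
          rw [List.eq_replicate_iff]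
          refine ⟨by simp, ?_⟩
          intro q hq
          obtain ⟨p, hp, rfl⟩ := List.mem_map.1 hq
          have := phase_other G hvx hvy [] l p hp
          simp only [List.nil_append, hxy] at this
          rcases this with h | ⟨_, _, _, h⟩ <;> exact h
        have h2 : ((sweep G l).map (fun p => p ++ [v])).map (restr x y) =
            (sweep G l).map (restr x y) := by
          rw [List.map_map]
          apply List.map_congr_left
          intro p _
          simp only [Function.comp]
          rw [restr_append, restr_other hvx hvy, List.append_nil]
        refine ⟨(phase G v [] l).length + a, b, ?_⟩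
        simp only [sweep, List.map_append, h1, h2, hab]
        rw [← List.append_assoc, ← List.replicate_add, Nat.add_assoc]

lemma restr_flatten (x y : V) (L : List (List V)) :
    restr x y L.flatten = (L.map (restr x y)).flatten := by
  induction L with
  | nil => rfl
  | cons p L ih => rw [List.flatten_cons, restr_append, ih, List.map_cons, List.flatten_cons]

lemma restr_comm (x y : V) (w : List V) : restr x y w = restr y x w := by
  unfold restr
  apply List.filter_congr
  intro c _
  simp only [or_comm]

lemma key (l : List V) (hnd : l.Nodup) {x y : V} (hne : x ≠ y) (hxy : restr x y l = [x, y]) :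
    G.Adj x y ↔ occ (restr x y (sweep G l).flatten) ≤ 1 := by
  obtain ⟨a, b, hab⟩ := sweep_pattern G l hnd hne hxy
  rw [restr_flatten, hab]
  unfold mid
  split_ifs with hG
  · simp only [hG, true_iff, List.nil_append, List.flatten_append]
    have h := occ_append_le (List.replicate (a + 1) [x, y]).flatten
      (List.replicate (b + 1) [y, x]).flatten
    rw [occ_replicate hne, occ_replicate hne.symm] at h
    exact h
  · simp only [hG, false_iff, not_le]
    have e : (List.replicate (a + 1) [x, y] ++ ([[y, x], [x, y]] ++
        List.replicate (b + 1) [y, x])).flatten =
        (List.replicate a [x, y]).flatten ++ ([x, y, y, x, x, y, y, x] ++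
          (List.replicate b [y, x]).flatten) := by
      rw [List.replicate_succ' (n := a), List.replicate_succ (n := b)]
      simp
    rw [e]
    have h1 : occ [x, y, y, x, x, y, y, x] = 3 := by simp [occ, hne, hne.symm]
    have h2 := occ_append_left [x, y, y, x, x, y, y, x] (List.replicate b [y, x]).flatten
    have h3 := occ_append_right (List.replicate a [x, y]).flatten
      ([x, y, y, x, x, y, y, x] ++ (List.replicate b [y, x]).flatten)
    omega

end Pool.Agent.Results.MP_eaeafc_co.EveryGraph

namespace Pool.Agent.Results.MP_eaeafc_co.EveryGraph

/-- Every finite simple graph is 1-11-represented by a concatenation of permutations of its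
vertex set (which is a uniform word).  This answers Q1 and Q2 affirmatively. -/
theorem result {V : Type*} [Fintype V] [DecidableEq V] (G : SimpleGraph V) :
    ∃ w : List V, IsPermConcat w ∧ IsUniform w ∧ Represents 1 G w := by
  classical
  set l : List V := (Finset.univ : Finset V).toList with hl
  have hnd : l.Nodup := Finset.nodup_toList _
  have hmem : ∀ v, v ∈ l := fun v => by simp [hl]
  have hperm : ∀ p ∈ sweep G l, p.Nodup ∧ ∀ v : V, v ∈ p := by
    intro p hp
    have h := sweep_perm G l p hp
    exact ⟨h.nodup_iff.2 hnd, fun v => h.mem_iff.2 (hmem v)⟩
  refine ⟨(sweep G l).flatten, ⟨sweep G l, hperm, rfl⟩, ⟨(sweep G l).length, ?_⟩, ?_, ?_⟩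
  · intro v
    have : ∀ L : List (List V), (∀ p ∈ L, p.Nodup ∧ ∀ v : V, v ∈ p) →
        L.flatten.count v = L.length := by
      intro L
      induction L with
      | nil => simp
      | cons p L ih =>
        intro hL
        rw [List.flatten_cons, List.count_append, List.length_cons,
          ih (fun q hq => hL q (List.mem_cons_of_mem _ hq)),
          List.count_eq_one_of_mem (hL p (List.mem_cons_self)).1 ((hL p (List.mem_cons_self)).2 v)]
        ring
    exact this _ hperm
  · intro v
    obtain ⟨p, hp⟩ := List.exists_mem_of_ne_nil _ (sweep_ne_nil G l)
    exact List.mem_flatten.2 ⟨p, hp, (hperm p hp).2 v⟩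
  · intro x y hne
    have hp : (restr x y l).Perm [x, y] := by
      unfold restr
      rw [List.perm_ext_iff_of_nodup (hnd.filter _) (by simp [hne])]
      intro c
      simp [hmem]
    rcases perm_pair hp with h | h
    · exact key G l hnd hne h
    · rw [G.adj_comm, restr_comm]
      exact key G l hnd hne.symm (by rw [restr_comm]; exact h)

end Pool.Agent.Results.MP_eaeafc_co.EveryGraph
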